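import Pool.Agent.V8H78.PA.Mat
import Pool.Agent.Results.MP_bbc1fa_nt.RandomProducts

/-!
# Four exponentials for products whose exponents are close to almost any point over several primes

Let `V` be a rational space of real numbers of dimension at most `m`, for instance `0` or the space generated by the
logarithms of `m` given rational numbers. For every `j ≤ n` let `q_{j,1}, …, q_{j,k}` be multiplicatively independent
positive rational numbers (for instance distinct primes), let `ζ_j` be an arbitrary real number, for instance `0`, and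
`l_j = ζ_j + ∑_t a_{j,t} log q_{j,t}` with integers `a_{j,t}`, so `l_j` is the logarithm of the rational number
`∏_t q_{j,t} ^ a_{j,t}` if `ζ_j = 0`.

Let `P_1, …, P_r` be primes and `x = (x_1, …, x_r)`, `x_i` an `n × k` matrix of integers of `ℚ_(P_i)`. We consider the
integer matrices `a` of exponents which are close to `x` at all the `r` primes, `|x_i - a|_(P_i) ≤ c |a| ^ (-τ)` for
`i = 1, …, r`. For `τ = 1 / r` examples are the residues of `x` modulo `M`, `M = ∏ P_i ^ (e_i)` with
`P_i ^ (e_i) ≤ κ P_l ^ (e_l)` for all `i`, `l`: one matrix for each such number `M`, by the Chinese remainder theorem; for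
`r = 1` these are the truncations of the padic expansions. We show that for all `x` outside a set of Hausdorff dimension at most `(n k - δ k) / τ`, which is less than the
dimension `r n k` of the space for `τ = 1 / r`, the following is true for all large `a` of this kind: the space
`V' = V + ℚ l_1 + ⋯ + ℚ l_n` has dimension `dim V + n`, and every `2 × 2` matrix with entries in `V'`, not all in `V`, with
`ℚ`-independent rows and `ℚ`-independent columns, is nonsingular.

The residues of a fixed point modulo the powers of `p` are a very sparse sequence, about `log T` matrices of norm at most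
`T`, and so this does not follow from the size of the exceptional set.

Proof. The starting theorem `RandomProducts` of this problem bounds the number of exceptional matrices with entries in
`[-T, T]` by `C T^(n k - δ k)`; the rest is a version for several primes of the tool `Pool.Agent.N575.PA` of helper575.
-/

set_option autoImplicit false

namespace Pool.Agent.V8H78.Out.PadicExponents

open Module
open Pool.Agent.N671.DA (mat shrink)
open Pool.Agent.V8H78.PA (adic_vectors residues Residues thin_mat)
open Pool.Agent.Results.MP_bbc1fa_nt.RandomProducts (adjoin logs FourExponentials)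

/-- The conclusion for the matrix `a` of exponents: the space `V' = V + ℚ l_1 + ⋯ + ℚ l_n` with
`l_j = ζ_j + ∑_t a_{j,t} log q_{j,t}` has dimension `dim V + n`, and every `2 × 2` matrix with entries in `V'`, not all in
`V`, with `ℚ`-independent rows and `ℚ`-independent columns, is nonsingular. -/
def Good (V : Submodule ℚ ℝ) {n k : ℕ} (ζ : Fin n → ℝ) (q : Fin n → Fin k → ℚ) (a : Fin n → Fin k → ℚ) : Prop :=
  finrank ℚ (adjoin V (logs ζ q a)) = finrank ℚ V + n ∧ FourExponentials V (adjoin V (logs ζ q a))

/-- **Four exponentials for products with exponents near almost any point over several primes.** For all `n ≥ 1` and `m`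
there are `k₀` and `δ > 0` such that for all `k ≥ k₀` and all positive rational numbers `q_{j,t}` such that
`q_{j,1}, …, q_{j,k}` are multiplicatively independent for every `j ≤ n` the following is true. Let `V` be a rational space
of real numbers of dimension at most `m`, `ζ ∈ ℝ^n`, `P_1, …, P_r` primes and `τ > 0`. For all points
`x = (x_1, …, x_r)`, `x_i ∈ ℤ_(P_i)^(n k)`, outside a set of Hausdorff dimension at most `(n k - δ k) / τ`
(1) for all `c` and all large integer matrices `a` (written as vectors `v` with `n k` coordinates, `a = mat v`) with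
`|x_i - v|_(P_i) ≤ c |v| ^ (-τ)` for `i = 1, …, r`, the matrix `a` is `Good`;
(2) if `r ≥ 1` and `τ = 1 / r` (the dimension is at most `r n k - r δ k`), then in particular for all `κ` and all large
`M = ∏ P_i ^ (e_i)` with `P_i ^ (e_i) ≤ κ P_l ^ (e_l)` for all `i`, `l` the matrix of the residues of `x` modulo `M` is
`Good`. -/
theorem result (n m : ℕ) (hn : 1 ≤ n) : ∃ (k₀ : ℕ) (δ : ℝ), 0 < δ ∧ ∀ k ≥ k₀, ∀ q : Fin n → Fin k → ℚ,
    (∀ j t, 0 < q j t) → (∀ j, LinearIndependent ℚ (fun t => Real.log (q j t))) →
    ∀ V : Submodule ℚ ℝ, Module.Finite ℚ V → finrank ℚ V ≤ m → ∀ ζ : Fin n → ℝ,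
    ∀ (r : ℕ) (P : Fin r → ℕ) [∀ i, Fact (P i).Prime] (τ : ℝ), 0 < τ →
      ∃ E : Set (∀ i : Fin r, Fin (n * k) → ℤ_[P i]), dimH E ≤ ENNReal.ofReal (((n : ℝ) * k - δ * k) / τ) ∧
        ∀ x, x ∉ E →
          (∀ c : ℝ, ∃ Q : ℝ, ∀ v : Fin (n * k) → ℤ, Q ≤ ‖v‖ →
            (∀ i t, ‖x i t - (v t : ℤ_[P i])‖ ≤ c * ‖v‖ ^ (-τ)) → Good V ζ q (mat v)) ∧
          (1 ≤ r → τ = 1 / (r : ℝ) → ∀ κ : ℝ, ∃ Q : ℝ, ∀ e : Fin r → ℕ,
            (∀ i l, (P i : ℝ) ^ e i ≤ κ * (P l : ℝ) ^ e l) → Q ≤ ∏ i, (P i : ℝ) ^ e i →
            ∀ v : Fin (n * k) → ℤ, Residues P x e v → Good V ζ q (mat v)) := by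
  classical
  obtain ⟨k₀, C, δ, hδ, hR⟩ := RandomProducts.result n m
  refine ⟨max k₀ 1, min δ 1, lt_min hδ one_pos, fun k hk q hq hli V hV hVm ζ r P _ τ hτ => ?_⟩
  have hk1 : 1 ≤ k := (le_max_right _ _).trans hk
  obtain ⟨Bad, hBad⟩ : ∃ Bad : (Fin n → Fin k → ℚ) → Prop, Bad = fun a => ¬ Good V ζ q a := ⟨_, rfl⟩
  obtain ⟨hs, hT⟩ := thin_mat (n := n) (k := k) (C₀ := (C : ℝ)) (δ := min δ 1)
    (Nat.one_le_iff_ne_zero.2 (by positivity)) Bad (Nat.cast_nonneg C) (min_le_right _ _)
    (fun A hA => by
      have h9 := (hR k ((le_max_left _ _).trans hk) q hq hli A hA V hV hVm ζ).trans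
        (shrink (n := n) (k := k) (δ := δ) (Nat.cast_nonneg C) hA.card_pos)
      refine le_trans (Nat.cast_le.2 (Finset.card_le_card ?_)) h9
      intro a ha
      rw [Finset.mem_filter] at ha ⊢
      refine ⟨ha.1, ?_⟩
      have h10 := ha.2
      rw [hBad] at h10
      exact h10)
  obtain ⟨E, hE, hEint, hE2⟩ := adic_vectors P _ hs hT hτ
  have hgood : ∀ v : Fin (n * k) → ℤ, v ∉ {v : Fin (n * k) → ℤ | Bad (mat v)} → Good V ζ q (mat v) := by
    intro v hv
    rw [hBad] at hv
    exact not_not.1 hv
  refine ⟨E, hE, fun x hx => ⟨fun c => ?_, fun hr hτr κ => ?_⟩⟩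
  · obtain ⟨Q, hQ⟩ := hE2 x hx c
    exact ⟨Q, fun v hv h1 => hgood v (hQ v hv h1)⟩
  · obtain ⟨Q₁, hQ₁⟩ := hE2 x hx (|κ| + 1)
    obtain ⟨Q, hQ⟩ := residues hr P x (fun v hv => hx (by rw [hv]; exact hEint v)) κ Q₁
    refine ⟨Q, fun e he hQe v hv => ?_⟩
    obtain ⟨h1, h2⟩ := hQ e he hQe v hv
    exact hgood v (hQ₁ v h1 (by rw [hτr]; exact h2))

end Pool.Agent.V8H78.Out.PadicExponents
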